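import Pool.Agent.H28.Sol.Main

/-!
# No quasi-isometric embedding of the hyperbolic plane into the upper half of `Sol`

`SolGeom.SolPt` is the set of points `(x, y, t)` of `Sol`, `SolGeom.solDist` is the path metric
of the Riemannian metric `e^{2t} dx² + e^{-2t} dy² + dt²`, and `SolGeom.IsQIEmbedding K C f`
says that `f` is a `(K, C)`-quasi-isometric embedding of the hyperbolic plane into `Sol`
(all in `Pool/Agent/H28/Sol/Defs.lean`).

Outline of the proof. Let `h` be the `t`-coordinate of the embedding, a coarsely Lipschitz
function bounded below.
* `Pool/Agent/H28/Sol/Growth.lean`: below every dyadic cell of the hyperbolic plane, the number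
  of first descendants at height `L` more than the cell is at least `c₁ e^{κ L}`, for every
  `κ < 1` (a self-improvement argument).
* `Pool/Agent/H28/Sol/BallSum.lean`: so the sum of `e^{-h}` over a large ball about a cell near
  the minimum of `h` grows subexponentially in the radius.
* `Pool/Agent/H28/Sol/FarLeaves.lean`: below such a cell there are two high points whose
  `x`-coordinates differ a lot.
* `Pool/Agent/H28/Sol/Crossing.lean`, `Main.lean`: a generic value `x₀` between these two
  `x`-coordinates is attained along a short sequence of cells which crosses the geodesic
  between the two points (discrete Hex lemma), and such a sequence cannot exist.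
-/

namespace Pool.Agent.Results.MP_19bed6_al.NoPlaneInSolPlus

open SolGeom

/-- There is no quasi-isometric embedding of the hyperbolic plane into `Sol` whose image lies in
the half `t ≥ 0`. -/
theorem result : ¬ ∃ (K C : ℝ) (f : UpperHalfPlane → SolPt),
    1 ≤ K ∧ 0 ≤ C ∧ IsQIEmbedding K C f ∧ ∀ p : UpperHalfPlane, 0 ≤ (f p).t :=
  no_qi_embedding

end Pool.Agent.Results.MP_19bed6_al.NoPlaneInSolPlus
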